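import Pool.Agent.H668Z.SC.Box
import Pool.Agent.H59Z.NA.Final
import Pool.Agent.SCZ.Geo.Pack
import Pool.Agent.SCZ.Geo.Tbasic
import Pool.Agent.SCZ.Geo.Tbdd
import Pool.Agent.SCZ.Geo.Tchain
import Pool.Agent.SCZ.Geo.Tfam
import Pool.Agent.SCZ.Geo.TlinesG
import Pool.Agent.SCZ.Geo.TloxqR
import Pool.Agent.SCZ.Geo.Tpersist
import Pool.Agent.SCZ.Geo.Tscale
import Pool.Agent.SCZ.Geo.TstepR
import Pool.Agent.SCZ.Geo.Tthinq
import Pool.Agent.SCZ.Geo.TtriR
import Pool.Agent.SCZ.Geo.Twords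
import Pool.Agent.SCZ.Geo.TwordsF
import Pool.Agent.SCZ.Grp.Tfix

set_option autoImplicit false

/-! The small cancellation box, unconditionally. -/

namespace Pool.Agent.H729Z.Box

open Pool.Agent.H59Z.NA Pool.Agent.SCZ.Geo Pool.Agent.H668Z.SC

theorem basic_holds : S_basic := thm_basic tau_holds
theorem scale_holds : S_scale := thm_scale hyp_holds comm_holds basic_holds
theorem fam_holds : S_fam := thm_fam tau_holds hyp_holds basic_holds
theorem persist_holds : S_persist := thm_persist tau_holds fam_holds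
theorem bdd_holds : S_bdd := thm_bdd pos_holds fp_holds lfp_holds basic_holds
theorem triR_holds : S_triR := thm_triR tau_holds pos_holds md_holds
theorem thinq_holds : S_thinq :=
  thm_thinq tau_holds pos_holds md_holds basic_holds fam_holds persist_holds
theorem loxqR_holds : S_loxqR := thm_loxqR tau_holds pos_holds md_holds basic_holds
theorem stepR_holds : S_stepR :=
  thm_stepR tau_holds lox_holds acylq_holds basic_holds scale_holds fam_holds bdd_holds
    triR_holds thinq_holds loxqR_holds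
theorem linesG_holds : S_linesG := thm_linesG tau_holds hyp_holds axis_holds
theorem chain_holds : S_chain := thm_chain fam_holds
theorem words_holds : S_words := thm_words tau_holds linesG_holds fam_holds chain_holds
theorem wordsF_holds : S_wordsF := thm_wordsF tau_holds axis_holds linesG_holds words_holds

/-- Bounded subgroups lie in finite cyclic subgroups. -/
def FC (Q : Type) {V : Type} [Group Q] [MulAction Q V] (X : GM V) : Prop :=
  ∀ H : Subgroup Q, Bdd X H → ∃ g : Q, IsOfFinOrder g ∧ H ≤ Subgroup.zpowers g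

/-- The class of groups of the box. -/
def Cl (Q : Type) [Group Q] : Prop :=
  ∃ (V : Type) (_ : MulAction Q V) (X : GM V) (τ₀ : ℝ), 0 < τ₀ ∧
    GoodR Q V X 122 (10 ^ 9) τ₀ ∧ FC Q X

section

variable {Q V : Type} [Group Q] [MulAction Q V] {X : GM V}

theorem tau_one (hi : X.Inv Q) : X.tau (1 : Q) = 0 := by
  have := (tau_holds Q V X hi).2.2.2.1 1 0
  simpa using this

theorem bdd_mono {H H' : Subgroup Q} (h : H ≤ H') (hb : Bdd X H') : Bdd X H := by
  obtain ⟨x, r, hx⟩ := hb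
  exact ⟨x, r, fun g hg => hx g (h hg)⟩

theorem disp_of_finite (X : GM V) (p : V) {S : Set Q} (hS : S.Finite) :
    ∃ D : ℕ, ∀ f ∈ S, X.d p (f • p) ≤ D := by
  obtain ⟨D, hD⟩ := (hS.image fun f : Q => X.d p (f • p)).bddAbove
  exact ⟨D, fun f hf => hD ⟨f, hf, rfl⟩⟩

theorem ell_of_fin (hV : Nonempty V) {u : Q} (hu : IsOfFinOrder u) : Ell X u := by
  obtain ⟨p⟩ := hV
  obtain ⟨D, hD⟩ := disp_of_finite X p (finite_zpowers.2 hu)
  exact ⟨p, D, fun h hh => hD h hh⟩

theorem fin_of_mem {g u : Q} (hg : IsOfFinOrder g) (hu : u ∈ Subgroup.zpowers g) :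
    IsOfFinOrder u := by
  obtain ⟨k, rfl⟩ := Subgroup.mem_zpowers_iff.1 hu
  exact hg.zpow

theorem comm_of_mem {g a b : Q} (ha : a ∈ Subgroup.zpowers g) (hb : b ∈ Subgroup.zpowers g) :
    Commute a b := by
  obtain ⟨k, rfl⟩ := Subgroup.mem_zpowers_iff.1 ha
  obtain ⟨l, rfl⟩ := Subgroup.mem_zpowers_iff.1 hb
  exact (Commute.refl g).zpow_zpow _ _

end

theorem cl_base : Cl (FreeGroup ℕ) := by
  obtain ⟨X, hX⟩ := base_holds
  have G := hX 1 1 le_rfl
  have hd : ∀ g : FreeGroup ℕ, g = 1 ∨ 1 ≤ X.tau g := fun g => by simpa using G.dich g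
  have h0 := tau_one G.inv
  have hne : ∀ u : FreeGroup ℕ, 0 < X.tau u → u ≠ 1 := by
    rintro u hu rfl
    exact hu.ne' h0
  refine ⟨FreeGroup ℕ, inferInstance, X, 1, one_pos,
    ⟨G.ne, G.inv, G.four, fun g => ?_, fun t ht => ?_, fun u hu => G.cyc u (hne u hu),
      fun u t hu => G.mal u t (hne u hu), G.acyl, fun g _ _ _ _ _ => ?_⟩, fun H hH => ?_⟩
  · rcases hd g with rfl | h
    · exact Or.inl (ell_of_fin G.ne IsOfFinOrder.one)
    · exact Or.inr h
  · rcases hd t with h | h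
    · exact h
    · have e := (tau_holds _ _ X G.inv).2.2.2.1 t 2
      have ht' : t ^ (2 : ℤ) = 1 := by exact_mod_cast ht
      rw [ht', h0] at e
      norm_num at e
      linarith
  · rcases hd g with h | h
    · exact Or.inl h
    · exact Or.inr (by linarith)
  · refine ⟨1, IsOfFinOrder.one, fun h hh => ?_⟩
    have e : X.tau h = 0 := (basic_holds _ _ X 122 G.inv G.four).2.2.1 h
      (bdd_mono (Subgroup.zpowers_le.2 hh) hH)
    rcases hd h with rfl | h'
    · exact one_mem _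
    · linarith

theorem cl_cent (Q : Type) [Group Q] (hQ : Cl Q) (u : Q) (hu1 : u ≠ 1) (hu : IsOfFinOrder u) :
    ∃ g : Q, IsOfFinOrder g ∧ ∀ a : Q, Commute a u → a ∈ Subgroup.zpowers g := by
  obtain ⟨V, _, X, τ₀, -, G, hFC⟩ := hQ
  obtain ⟨-, b2, b3, -⟩ := basic_holds Q V X 122 G.inv G.four
  have hell : Ell X u := ell_of_fin G.ne hu
  obtain ⟨p, hp⟩ := b2 _ hell
  have hpu := hp u (Subgroup.mem_zpowers u)
  obtain ⟨g, hg, hle⟩ := hFC (Subgroup.centralizer {u}) ⟨p, 10 ^ 9, fun c hc => by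
    by_contra hlt
    have hc' : u * c = c * u := (Subgroup.mem_centralizer_iff.1 hc) u rfl
    have e : X.d (c • p) (u • c • p) = X.d p (u • p) := by
      rw [← mul_smul, hc', mul_smul, G.inv]
    rcases G.thin u p (c • p) (by omega) (by omega) (by omega) with h | h
    · exact hu1 h
    · exact h.ne' (b3 u hell)⟩
  refine ⟨g, hg, fun a ha => hle (Subgroup.mem_centralizer_iff.2 ?_)⟩
  rintro _ rfl
  exact ha.symm.eq

theorem lin_lt_pow (C : ℕ) : ∀ m, 4 * C ≤ m → C * (m + 1) < 2 ^ m := by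
  intro m hm
  induction m, hm using Nat.le_induction with
  | base =>
    have h := Nat.lt_two_pow_self (n := 2 * C)
    have e : 2 ^ (4 * C) = 2 ^ (2 * C) * 2 ^ (2 * C) := by rw [← pow_add]; congr 1; omega
    rw [e]
    nlinarith
  | succ m _ ih => rw [pow_succ]; nlinarith

theorem exists_scale {τ : ℝ} (hτ : 0 < τ) :
    ∃ L₀ : ℕ, ∀ L, L₀ ≤ L → ∃ m : ℕ, (L : ℝ) < 2 ^ m * τ ∧ m * 122 ≤ L := by
  obtain ⟨N, hN⟩ := exists_nat_ge (1 / τ)
  rw [div_le_iff₀ hτ] at hN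
  refine ⟨122 * (4 * (122 * N)), fun L hL => ⟨L / 122, ?_, Nat.div_mul_le_self L 122⟩⟩
  have h := lin_lt_pow (122 * N) (L / 122) (by omega)
  have h2 : N * L ≤ 122 * N * (L / 122 + 1) := by
    have : L ≤ 122 * (L / 122 + 1) := by omega
    nlinarith
  have h3 : ((N * L : ℕ) : ℝ) < ((2 ^ (L / 122) : ℕ) : ℝ) := by exact_mod_cast h2.trans_lt h
  push_cast at h3
  have h4 : (0 : ℝ) ≤ L := Nat.cast_nonneg L
  nlinarith

theorem gen_step {Q V : Type} [Group Q] [MulAction Q V] {X : GM V} {τ₀ : ℝ} (hτ : 0 < τ₀)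
    (G : GoodR Q V X 122 (10 ^ 9) τ₀) (hFC : FC Q X) {S : Set Q} (hS : S.Finite)
    (h1 : (1 : Q) ∉ S) :
    ∃ L₀ : ℕ, ∀ L, L₀ ≤ L → ∀ (I : Type) (_ : MulAction Q I) (F : Fam Q V I X L),
      (∀ i, Odd (F.mu i)) → Cl (Q ⧸ F.K) ∧ (∀ f ∈ S, QuotientGroup.mk' F.K f ≠ 1) ∧
        Persist (QuotientGroup.mk' F.K) := by
  obtain ⟨L₁, hL₁⟩ := exists_scale hτ
  obtain ⟨p⟩ := G.ne
  obtain ⟨D, hD⟩ := disp_of_finite X p hS
  refine ⟨L₁ + D + 2 * 10 ^ 9, fun L hL I _ F hodd => ?_⟩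
  obtain ⟨m, hm, hm'⟩ := hL₁ L (by omega)
  obtain ⟨W, J, _, _, A, φ, ψ, hq⟩ := pack_holds Q V I X 122 L F G.ne G.inv G.four (by omega)
    (by omega)
  have hτ₁ : 0 < min 1 τ₀ := lt_min one_pos hτ
  have G' := stepR_holds Q V I X 122 (10 ^ 9) L m τ₀ (min 1 τ₀) F _ W J _ A φ ψ G hodd (by omega)
    hm hm' hτ₁ (min_le_left _ _)
    (fun g => (G.dich g).elim Or.inl fun h => Or.inr (Or.inr ((min_le_right _ _).trans h))) hq
  obtain ⟨d1, d2, d3, -⟩ := bdd_holds Q V I X 122 L F _ W J _ A φ ψ G.inv G.four (by omega) hq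
  obtain ⟨-, -, p3, -⟩ := persist_holds Q V I X 122 L F _ W J _ A φ ψ G.inv G.four (by omega) hq
  have hL0 : (0 : ℝ) < L := by exact_mod_cast (show 0 < L by omega)
  refine ⟨⟨W, inferInstance, A.Z, _, by positivity, G', fun H hH => ?_⟩, fun f hf h => ?_,
    fun u hu1 hu => ?_⟩
  · rcases d1 H hH with ⟨i, hi⟩ | ⟨H', hH', rfl⟩
    · refine ⟨_, isOfFinOrder_iff_pow_eq_one.2 ⟨F.mu i, (hodd i).pos, ?_⟩, hi⟩
      rw [← map_pow]
      exact hq.quo.rel i
    · obtain ⟨g, hg, hle⟩ := hFC H' hH'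
      refine ⟨_, MonoidHom.isOfFinOrder (QuotientGroup.mk' F.K) hg, ?_⟩
      rw [← MonoidHom.map_zpowers]
      exact Subgroup.map_mono hle
  · have := hD f hf
    exact h1 (p3 f p h (by omega) ▸ hf)
  · have hell : Ell X u := ell_of_fin G.ne hu
    have hm := Subgroup.mem_zpowers u
    refine ⟨(d2 _ hell u hm hu1).1, fun t ht => ?_⟩
    have e : QuotientGroup.mk' F.K t * QuotientGroup.mk' F.K u * (QuotientGroup.mk' F.K t)⁻¹ =
        QuotientGroup.mk' F.K u := by rw [ht.eq, mul_inv_cancel_right]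
    obtain ⟨s, hs, hs'⟩ := d3 _ _ _ u u hell hell hm hm hu1 e
    refine ⟨s, ?_, hs⟩
    have := hs' u hm u hm e
    show s * u = u * s
    rw [mul_inv_eq_iff_eq_mul] at this
    exact this

/-- The conclusion of the step. -/
def Step (Q : Type) [Group Q] (S : Set Q) (c : Bool) (x y z : Q) : Prop :=
  ∃ r : Q, (∀ ρ : Q →* Q, ρ x = x → ρ y = y → ρ z = z → ρ r = r) ∧
    ∃ (R : Type) (_ : Group R) (π : Q →* R), Function.Surjective π ∧
      π.ker = Subgroup.normalClosure {r} ∧ Cl R ∧ (∀ f ∈ S, π f ≠ 1) ∧ Persist π ∧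
      (c = true → Commute x y ∨ π z ∈ Subgroup.closure {π x, π y}) ∧
      (c = false → IsOfFinOrder (π z))

theorem step_triv {Q : Type} [Group Q] (hQ : Cl Q) {S : Set Q} (h1 : (1 : Q) ∉ S) {c : Bool}
    {x y z : Q} (ht : c = true → Commute x y) (hf : c = false → IsOfFinOrder z) :
    Step Q S c x y z := by
  refine ⟨1, fun ρ _ _ _ => map_one ρ, Q, inferInstance, MonoidHom.id Q, Function.surjective_id,
    ?_, hQ, fun f hf h => h1 ?_, fun u hu _ => ⟨hu, fun t ht => ⟨t, ht, rfl⟩⟩,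
    fun h => Or.inl (ht h), hf⟩
  · rw [MonoidHom.ker_id]
    refine le_antisymm bot_le (Subgroup.normalClosure_le_normal ?_)
    rintro _ rfl
    exact one_mem _
  · have h' : f = 1 := h
    exact h' ▸ hf

theorem step_true {Q : Type} [Group Q] (hQ : Cl Q) {S : Set Q} (hS : S.Finite)
    (h1 : (1 : Q) ∉ S) (x y z : Q) : Step Q S true x y z := by
  by_cases hxy : Commute x y
  · exact step_triv hQ h1 (fun _ => hxy) (fun h => by simp at h)
  obtain ⟨V, _, X, τ₀, hτ, G, hFC⟩ := hQ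
  have hx : x ∈ Subgroup.closure ({x, y} : Set Q) := Subgroup.subset_closure (by simp)
  have hy : y ∈ Subgroup.closure ({x, y} : Set Q) := Subgroup.subset_closure (by simp)
  have hnb : ¬ Bdd X (Subgroup.closure ({x, y} : Set Q)) := fun hb => by
    obtain ⟨g, -, hle⟩ := hFC _ hb
    exact hxy (comm_of_mem (hle hx) (hle hy))
  have hA := (scale_holds Q V X 122 (10 ^ 9) G.inv G.four G.thin).2 G.cyc G.mal G.acyl
  obtain ⟨p⟩ := G.ne
  obtain ⟨h, hh, hτh, -⟩ := Pool.Agent.SCZ.Grp.thm_w1 Q V X 122 (10 ^ 9 + 40 * 122)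
    (X.d p (x • p) + X.d p (y • p)) x y p G.inv G.four
    (fun D => by
      have e : 10 ^ 9 + 40 * 122 + 20 * D = 10 ^ 9 + 20 * D + 40 * 122 := by omega
      rw [e]
      exact hA D) hxy hnb (by omega) (by omega)
  have hτh' : 0 < X.tau h := by linarith
  obtain ⟨v, hv, hhv⟩ : ∃ v ∈ Subgroup.closure ({x, y} : Set Q), ¬ Commute h v := by
    by_contra hcon
    push Not at hcon
    obtain ⟨g, hg⟩ := G.cyc h hτh'
    exact hxy (comm_of_mem (hg x (hcon x hx).symm) (hg y (hcon y hy).symm))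
  obtain ⟨L₀, hL₀⟩ := gen_step hτ G hFC hS h1
  obtain ⟨W₀, hW₀⟩ := exists_scale hτh'
  obtain ⟨D, hD⟩ : ∃ D, D = X.d p (h • p) + X.d p (v • p) + X.d p (z⁻¹ • p) := ⟨_, rfl⟩
  obtain ⟨W, hW⟩ : ∃ W, W = W₀ + L₀ + 10 ^ 9 + 20 * D + 40000 * 122 := ⟨_, rfl⟩
  obtain ⟨m, hm, hm'⟩ := hW₀ W (by omega)
  obtain ⟨w, hw, -, I, _, F, hF1, hF2⟩ := wordsF_holds Q V X 122 (10 ^ 9) D W m (4 * 10 ^ 18 * W)
    G.inv G.four (by norm_num) G.cyc G.mal hA h v z⁻¹ p hτh' hhv (by omega) (by omega) (by omega)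
    (by omega) hm hm' rfl
  have hw' : w ∈ Subgroup.closure ({x, y} : Set Q) := by
    refine (Subgroup.closure_le _).2 ?_ hw
    rintro _ (rfl | rfl)
    · exact hh
    · exact hv
  obtain ⟨c1, c2, c3⟩ := hL₀ _ (by omega) I _ F (fun i => by rw [(hF1 i).1]; exact odd_one)
  refine ⟨z⁻¹ * w, fun ρ hρx hρy hρz => ?_, _, inferInstance, QuotientGroup.mk' F.K,
    QuotientGroup.mk'_surjective _, by rw [QuotientGroup.ker_mk', hF2], c1, c2, c3,
    fun _ => Or.inr ?_, fun h => by simp at h⟩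
  · have : w ∈ ρ.eqLocus (MonoidHom.id Q) := by
      refine (Subgroup.closure_le _).2 ?_ hw'
      rintro _ (rfl | rfl)
      · exact hρx
      · exact hρy
    have e : ρ w = w := this
    rw [map_mul, map_inv, hρz, e]
  · have e : QuotientGroup.mk' F.K (z⁻¹ * w) = 1 := by
      rw [← MonoidHom.mem_ker, QuotientGroup.ker_mk', hF2]
      exact Subgroup.subset_normalClosure rfl
    rw [map_mul, map_inv, inv_mul_eq_one] at e
    rw [e, ← Set.image_pair, ← MonoidHom.map_closure]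
    exact Subgroup.mem_map_of_mem _ hw'

theorem step_false {Q : Type} [Group Q] (hQ : Cl Q) {S : Set Q} (hS : S.Finite)
    (h1 : (1 : Q) ∉ S) (x y z : Q) : Step Q S false x y z := by
  by_cases hz : IsOfFinOrder z
  · exact step_triv hQ h1 (fun h => by simp at h) (fun _ => hz)
  obtain ⟨V, _, X, τ₀, hτ, G, hFC⟩ := hQ
  have hτz : 0 < X.tau z := by
    rcases G.dich z with h | h
    · obtain ⟨g, hg, hle⟩ := hFC _ h
      exact absurd (fin_of_mem hg (hle (Subgroup.mem_zpowers z))) hz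
    · exact hτ.trans_le h
  have hacyl := (scale_holds Q V X 122 (10 ^ 9) G.inv G.four G.thin).2 G.cyc G.mal G.acyl
  obtain ⟨t1, t2, -, t4, t5, -, -⟩ := tau_holds Q V X G.inv
  obtain ⟨x₀, hx₀⟩ := G.cyc z hτz
  obtain ⟨e, he⟩ := hx₀ z (Commute.refl z)
  simp only at he
  have hτe : X.tau z = |(e : ℝ)| * X.tau x₀ := by rw [← he, t4]
  have he0 : e ≠ 0 := by
    rintro rfl
    simp at hτe
    exact hτz.ne' hτe
  have hτ0 : 0 < X.tau x₀ := by
    rcases (t2 x₀).eq_or_lt with h | h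
    · rw [← h, mul_zero] at hτe
      exact absurd hτe hτz.ne'
    · exact h
  obtain ⟨D, hτ0D⟩ := exists_nat_ge (X.tau x₀)
  have cent : ∀ g, (∃ s, g = s * x₀ * s⁻¹) → ∀ c, Commute c g → c ∈ Subgroup.zpowers g := by
    rintro g ⟨s, rfl⟩ c hc
    have c1 : Commute (s⁻¹ * c * s) x₀ := by
      have := hc.eq
      unfold Commute SemiconjBy
      calc s⁻¹ * c * s * x₀ = s⁻¹ * (c * (s * x₀ * s⁻¹)) * s := by group
        _ = x₀ * (s⁻¹ * c * s) := by rw [this]; group
    obtain ⟨n, hn⟩ := hx₀ _ (he ▸ c1.zpow_right e)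
    simp only at hn
    refine ⟨n, ?_⟩
    simp only [conj_zpow, hn]
    group
  have taug : ∀ g, (∃ s, g = s * x₀ * s⁻¹) → X.tau g = X.tau x₀ := by
    rintro g ⟨s, rfl⟩
    exact t5 _ _
  obtain ⟨L₀, hL₀⟩ := gen_step hτ G hFC hS h1
  obtain ⟨L, hL⟩ : ∃ L, L = L₀ + (10 ^ 9 + 20 * (D + 1500 * 122) + 40 * 122) + 3000 * 122 :=
    ⟨_, rfl⟩
  obtain ⟨M, hM⟩ := exists_nat_ge ((10 ^ 9 : ℝ) * L / X.tau x₀)
  rw [div_le_iff₀ hτ0] at hM
  have hM' : (10 ^ 9 : ℝ) * L ≤ ((2 * M + 1 : ℕ) : ℝ) * X.tau x₀ := by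
    have : (0 : ℝ) ≤ M := Nat.cast_nonneg M
    push_cast
    nlinarith
  obtain ⟨I, _, F, hF1, hF2⟩ := linesG_holds Q V X 122
    (10 ^ 9 + 20 * (D + 1500 * 122) + 40 * 122) L
    (fun g => ∃ s, g = s * x₀ * s⁻¹) (fun _ => 2 * M + 1) G.inv G.four (by norm_num) (by omega)
    (by
      rintro g s ⟨t, rfl⟩
      exact ⟨⟨s * t, by group⟩, rfl⟩)
    (fun g hg => by
      have hpos : 0 < X.tau g := by rw [taug g hg]; exact hτ0
      refine ⟨hpos, fun t ht => cent g hg t (G.mal g t hpos ?_), by rw [taug g hg]; exact hM'⟩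
      obtain ⟨n, hn⟩ := ht
      rw [← hn]
      exact (Commute.refl g).zpow_right n)
    (fun g g' hg hg' hne b b' a1 a2 a3 a4 => by
      by_contra hcon
      have key : ∀ g, (∃ s, g = s * x₀ * s⁻¹) → ∀ b ∈ Ax X g (1500 * 122),
          X.d b (g • b) ≤ D + 1500 * 122 := by
        intro g hg b hb
        have : (X.d b (g • b) : ℝ) ≤ X.tau g + ((1500 * 122 : ℕ) : ℝ) := hb
        rw [taug g hg] at this
        have h' : (X.d b (g • b) : ℝ) ≤ ((D + 1500 * 122 : ℕ) : ℝ) := by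
          rw [Nat.cast_add]; linarith
        exact_mod_cast h'
      have hc := hacyl (D + 1500 * 122) g g' b b' (key g hg b a1) (key g hg b' a2)
        (key g' hg' b a3) (key g' hg' b' a4) (by omega)
      apply hne
      exact le_antisymm (Subgroup.zpowers_le.2 (cent g' hg' g hc))
        (Subgroup.zpowers_le.2 (cent g hg g' hc.symm)))
  have hK : F.K = Subgroup.normalClosure {x₀ ^ (2 * M + 1)} := by
    refine le_antisymm ((Subgroup.closure_le _).2 ?_) (Subgroup.normalClosure_le_normal ?_)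
    · rintro _ ⟨i, rfl⟩
      obtain ⟨⟨s, hs'⟩, hmu⟩ := hF1 i
      simp only [hs', hmu, conj_pow]
      exact Subgroup.normalClosure_normal.conj_mem _
        (Subgroup.subset_normalClosure (Set.mem_singleton _)) s
    · rintro _ rfl
      obtain ⟨i, hi'⟩ := hF2 x₀ ⟨1, by group⟩
      have hg : F.gen i ^ (2 * M + 1) ∈ F.K := Subgroup.subset_closure ⟨i, by simp [(hF1 i).2]⟩
      rcases hi' with h | h
      · rw [h]; exact hg
      · rw [h, inv_pow]; exact F.K.inv_mem hg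
  obtain ⟨c1, c2, c3⟩ := hL₀ L (by omega) I _ F
    (fun i => by rw [(hF1 i).2]; exact odd_two_mul_add_one M)
  refine ⟨x₀ ^ (2 * M + 1), fun ρ _ _ hρz => ?_, _, inferInstance, QuotientGroup.mk' F.K,
    QuotientGroup.mk'_surjective _, by rw [QuotientGroup.ker_mk', hK], c1, c2, c3,
    fun h => by simp at h, fun _ => ?_⟩
  · have hc : Commute x₀ z := he ▸ (Commute.refl x₀).zpow_right e
    have hc' : Commute (ρ x₀) z := hρz ▸ hc.map ρ
    obtain ⟨j, hj⟩ := hx₀ _ hc'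
    simp only at hj
    have e1 : x₀ ^ (j * e - e) = 1 := by
      rw [zpow_sub, zpow_mul, hj, ← map_zpow, he, hρz, mul_inv_cancel]
    have e2 := t4 x₀ (j * e - e)
    rw [e1, tau_one G.inv] at e2
    have e3 : |((j * e - e : ℤ) : ℝ)| = 0 := by
      rcases mul_eq_zero.1 e2.symm with h | h
      · exact h
      · exact absurd h hτ0.ne'
    have e4 : j * e - e = 0 := by exact_mod_cast abs_eq_zero.1 e3
    have e5 : j = 1 := by
      have : (j - 1) * e = 0 := by linarith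
      rcases mul_eq_zero.1 this with h | h
      · omega
      · exact absurd h he0
    rw [map_pow, ← hj, e5, zpow_one]
  · have e : QuotientGroup.mk' F.K (x₀ ^ (2 * M + 1)) = 1 := by
      rw [← MonoidHom.mem_ker, QuotientGroup.ker_mk', hK]
      exact Subgroup.subset_normalClosure rfl
    rw [← he, map_zpow]
    refine IsOfFinOrder.zpow (isOfFinOrder_iff_pow_eq_one.2 ⟨2 * M + 1, by omega, ?_⟩)
    rw [← map_pow, e]

theorem thm_box : S_box := by
  refine ⟨Cl, cl_base, cl_cent, fun Q _ hQ S hS h1 c x y z => ?_⟩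
  cases c
  · exact step_false hQ hS h1 x y z
  · exact step_true hQ hS h1 x y z

end Pool.Agent.H729Z.Box
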